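import Mathlib
import Pool.Agent.Helper67.Numeric

namespace Pool.Agent.Results.MP_f50651_co.PolynomialLowerBound

open Pool.Agent.Helper67

/-- `P` is a straight-line drawing of `G` in the Euclidean plane: the vertices are placed at
distinct points, and the closed segment drawn for an edge contains no vertex other than its
endpoints. -/
def IsStraightLineDrawing {V : Type*} (G : SimpleGraph V) (P : V → EuclideanSpace ℝ (Fin 2)) :
    Prop :=
  Function.Injective P ∧
    ∀ u v w : V, G.Adj u v → w ≠ u → w ≠ v → P w ∉ segment ℝ (P u) (P v)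

/-- The edges `uv` and `u'v'` cross: their closed segments share a point that is not a common
endpoint of the two segments. -/
def Cross {V : Type*} (P : V → EuclideanSpace ℝ (Fin 2)) (u v u' v' : V) : Prop :=
  ∃ z : EuclideanSpace ℝ (Fin 2), z ∈ segment ℝ (P u) (P v) ∧ z ∈ segment ℝ (P u') (P v') ∧
    ¬ ((z = P u ∨ z = P v) ∧ (z = P u' ∨ z = P v'))

/-- The geometric thickness of `G` is at most `k`: some straight-line drawing of `G` admits a
colouring of the edges with `k` colours in which no two distinct edges of the same colour cross. -/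
def GeometricThicknessLE {V : Type*} (G : SimpleGraph V) (k : ℕ) : Prop :=
  ∃ (P : V → EuclideanSpace ℝ (Fin 2)) (c : G.edgeSet → Fin k), IsStraightLineDrawing G P ∧
    ∀ (u v u' v' : V) (h : G.Adj u v) (h' : G.Adj u' v'), s(u, v) ≠ s(u', v') →
      c ⟨s(u, v), h⟩ = c ⟨s(u', v'), h'⟩ → ¬ Cross P u v u' v'

theorem exists_shear {V : Type*} [Finite V] (a b : V → ℝ)
    (hinj : ∀ u v, a u = a v → b u = b v → u = v) :
    ∃ δ : ℝ, Function.Injective fun v => a v + δ * b v := by
  classical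
  have hfin : (⋃ p : {p : V × V // p.1 ≠ p.2},
      {δ : ℝ | a p.1.1 + δ * b p.1.1 = a p.1.2 + δ * b p.1.2}).Finite := by
    refine Set.finite_iUnion fun p => ?_
    refine Set.Subsingleton.finite ?_
    intro δ1 h1 δ2 h2
    simp only [Set.mem_ofPred_eq] at h1 h2
    have h3 : (δ1 - δ2) * (b p.1.1 - b p.1.2) = 0 := by linarith
    rcases mul_eq_zero.1 h3 with h4 | h4
    · linarith
    · exfalso
      have h5 : b p.1.1 = b p.1.2 := by linarith
      have h6 : a p.1.1 = a p.1.2 := by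
        rw [h5] at h1
        linarith
      exact p.2 (hinj _ _ h6 h5)
  obtain ⟨δ, hδ⟩ := hfin.infinite_compl.nonempty
  refine ⟨δ, fun u v huv => ?_⟩
  by_contra hne
  apply hδ
  rw [Set.mem_iUnion]
  exact ⟨⟨(u, v), hne⟩, huv⟩

theorem exists_conf {V W : Type*} [Finite V] (G : SimpleGraph W) {k : ℕ}
    (hG : GeometricThicknessLE G k) (e : V → W) (he : Function.Injective e) {Δ : ℕ}
    (mate : Fin Δ → V → V) (hmm : ∀ t v, mate t (mate t v) = v) (hne : ∀ t v, mate t v ≠ v)
    (hadj : ∀ t v, G.Adj (e v) (e (mate t v))) :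
    ∃ (x y : V → ℝ) (C : Fin Δ → Conf V k), Function.Injective x ∧
      ∀ t, (C t).x = x ∧ (C t).y = y ∧ (C t).mate = mate t := by
  obtain ⟨P, c, ⟨hPinj, -⟩, hc⟩ := hG
  obtain ⟨δ, hδ⟩ := exists_shear (fun v => P (e v) 0) (fun v => P (e v) 1) (by
    intro u v h0 h1
    apply he
    apply hPinj
    ext i
    fin_cases i
    · exact h0
    · exact h1)
  let x : V → ℝ := fun v => P (e v) 0 + δ * P (e v) 1
  let y : V → ℝ := fun v => P (e v) 1
  have hxinj : Function.Injective x := hδ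
  -- the segments of the same colour are disjoint
  have hdisj : ∀ t u w, c ⟨s(e u, e (mate t u)), hadj t u⟩ = c ⟨s(e w, e (mate t w)), hadj t w⟩ →
      w ≠ u → w ≠ mate t u → ∀ z : EuclideanSpace ℝ (Fin 2),
      z ∈ segment ℝ (P (e u)) (P (e (mate t u))) →
      z ∈ segment ℝ (P (e w)) (P (e (mate t w))) → False := by
    intro t u w hcol h1 h2 z hz hz'
    have h3 : mate t w ≠ u := by
      rintro rfl
      exact h2 (hmm t w).symm
    have h4 : mate t w ≠ mate t u := by
      intro h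
      have := congrArg (mate t) h
      rw [hmm, hmm] at this
      exact h1 this
    have hedge : s(e u, e (mate t u)) ≠ s(e w, e (mate t w)) := by
      intro h
      rw [Sym2.eq_iff] at h
      rcases h with ⟨h, -⟩ | ⟨h, -⟩
      · exact h1 (he h).symm
      · exact h3 (he h).symm
    refine hc _ _ _ _ (hadj t u) (hadj t w) hedge hcol ⟨z, hz, hz', ?_⟩
    rintro ⟨h5 | h5, h6 | h6⟩
    · exact h1 (he (hPinj (h6.symm.trans h5)))
    · exact h3 (he (hPinj (h6.symm.trans h5)))
    · exact h2 (he (hPinj (h6.symm.trans h5)))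
    · exact h4 (he (hPinj (h6.symm.trans h5)))
  let C : Fin Δ → Conf V k := fun t =>
    { x := x
      y := y
      mate := mate t
      col := fun v => c ⟨s(e v, e (mate t v)), hadj t v⟩
      xinj := hxinj
      mate_mate := hmm t
      mate_ne := hne t
      col_mate := by
        intro v
        congr 1
        apply Subtype.ext
        simp only
        rw [hmm, Sym2.eq_swap]
      disj := by
        intro u w hcol h1 h2 ξ hu1 hu2 hw1 hw2 heq
        -- the common point
        have hxu : 0 < x (mate t u) - x u := by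
          have : x (mate t u) ≠ x u := fun h => hne t u (hxinj h)
          rcases lt_or_gt_of_ne this with h | h
          · exact absurd (hu1.trans hu2) (not_le.2 h)
          · linarith
        have hxw : 0 < x (mate t w) - x w := by
          have : x (mate t w) ≠ x w := fun h => hne t w (hxinj h)
          rcases lt_or_gt_of_ne this with h | h
          · exact absurd (hw1.trans hw2) (not_le.2 h)
          · linarith
        let τ := (ξ - x u) / (x (mate t u) - x u)
        let τ' := (ξ - x w) / (x (mate t w) - x w)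
        have hτ0 : 0 ≤ τ := div_nonneg (by linarith) hxu.le
        have hτ1 : τ ≤ 1 := (div_le_one hxu).2 (by linarith)
        have hτ0' : 0 ≤ τ' := div_nonneg (by linarith) hxw.le
        have hτ1' : τ' ≤ 1 := (div_le_one hxw).2 (by linarith)
        let z : EuclideanSpace ℝ (Fin 2) := (1 - τ) • P (e u) + τ • P (e (mate t u))
        let z' : EuclideanSpace ℝ (Fin 2) := (1 - τ') • P (e w) + τ' • P (e (mate t w))
        have hz : z ∈ segment ℝ (P (e u)) (P (e (mate t u))) :=
          ⟨1 - τ, τ, by linarith, hτ0, by ring, rfl⟩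
        have hz' : z' ∈ segment ℝ (P (e w)) (P (e (mate t w))) :=
          ⟨1 - τ', τ', by linarith, hτ0', by ring, rfl⟩
        have hξ : x u + τ * (x (mate t u) - x u) = ξ := by
          simp only [τ]
          field_simp
          ring
        have hξ' : x w + τ' * (x (mate t w) - x w) = ξ := by
          simp only [τ']
          field_simp
          ring
        have hy : z 1 = z' 1 := by
          have e1 : z 1 = y u + τ * (y (mate t u) - y u) := by
            simp only [z, y, PiLp.add_apply, PiLp.smul_apply, smul_eq_mul]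
            ring
          have e2 : z' 1 = y w + τ' * (y (mate t w) - y w) := by
            simp only [z', y, PiLp.add_apply, PiLp.smul_apply, smul_eq_mul]
            ring
          rw [e1, e2]
          exact heq
        have hx : z 0 = z' 0 := by
          have e1 : z 0 + δ * z 1 = ξ := by
            rw [← hξ]
            simp only [z, x, PiLp.add_apply, PiLp.smul_apply, smul_eq_mul]
            ring
          have e2 : z' 0 + δ * z' 1 = ξ := by
            rw [← hξ']
            simp only [z', x, PiLp.add_apply, PiLp.smul_apply, smul_eq_mul]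
            ring
          rw [hy] at e1
          linarith
        have hzz : z = z' := by
          ext i
          fin_cases i
          · exact hx
          · exact hy
        exact hdisj t u w hcol h1 h2 z hz (hzz ▸ hz') }
  exact ⟨x, y, C, hxinj, fun t => ⟨rfl, rfl, rfl⟩⟩

theorem thickness_mono {V : Type*} {G : SimpleGraph V} {k k' : ℕ} (h : GeometricThicknessLE G k)
    (hk : k ≤ k') : GeometricThicknessLE G k' := by
  obtain ⟨P, c, hP, hc⟩ := h
  refine ⟨P, fun e => Fin.castLE hk (c e), hP, ?_⟩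
  intro u v u' v' h h' hne heq
  exact hc u v u' v' h h' hne (Fin.castLE_injective hk heq)

theorem sq_le_two_pow (l : ℕ) (hl : 4 ≤ l) : l * l ≤ 2 ^ l := by
  induction l, hl using Nat.le_induction with
  | base => norm_num
  | succ l hl ih =>
    rw [pow_succ]
    nlinarith

/-- The graph of a tuple of permutations, padded with isolated vertices. -/
def permGraph {m n Δ : ℕ} (e : Fin m ⊕ Fin m → Fin n) (π : Fin Δ → Equiv.Perm (Fin m)) :
    SimpleGraph (Fin n) :=
  SimpleGraph.fromRel fun a b => ∃ t v, a = e v ∧ b = e (mateOf (π t) v)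

theorem mateOf_mateOf {m : ℕ} (π : Equiv.Perm (Fin m)) (v : Fin m ⊕ Fin m) :
    mateOf π (mateOf π v) = v := by
  rcases v with i | j
  · simp [mateOf]
  · simp [mateOf]

theorem mateOf_ne {m : ℕ} (π : Equiv.Perm (Fin m)) (v : Fin m ⊕ Fin m) : mateOf π v ≠ v := by
  rcases v with i | j
  · simp [mateOf]
  · simp [mateOf]

theorem permGraph_adj {m n Δ : ℕ} (e : Fin m ⊕ Fin m → Fin n) (he : Function.Injective e)
    (π : Fin Δ → Equiv.Perm (Fin m)) (t : Fin Δ) (v : Fin m ⊕ Fin m) :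
    (permGraph e π).Adj (e v) (e (mateOf (π t) v)) := by
  rw [permGraph, SimpleGraph.fromRel_adj]
  exact ⟨fun h => mateOf_ne (π t) v (he h).symm, Or.inl ⟨t, v, rfl, rfl⟩⟩

theorem permGraph_degree {m n Δ : ℕ} (e : Fin m ⊕ Fin m → Fin n) (he : Function.Injective e)
    (π : Fin Δ → Equiv.Perm (Fin m)) (a : Fin n) :
    ((permGraph e π).neighborSet a).encard ≤ Δ := by
  by_cases ha : ∃ v, a = e v
  · obtain ⟨v, rfl⟩ := ha
    have hsub : (permGraph e π).neighborSet (e v) ⊆
        Set.range fun t : Fin Δ => e (mateOf (π t) v) := by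
      intro b hb
      rw [SimpleGraph.mem_neighborSet, permGraph, SimpleGraph.fromRel_adj] at hb
      rcases hb.2 with ⟨t, w, h1, h2⟩ | ⟨t, w, h1, h2⟩
      · have := he h1
        subst this
        exact ⟨t, h2.symm⟩
      · refine ⟨t, ?_⟩
        have h3 := he h2
        simp only
        rw [h3, mateOf_mateOf, h1]
    refine (Set.encard_le_encard hsub).trans ?_
    rw [← Set.image_univ]
    refine (Set.encard_image_le _ _).trans ?_
    rw [Set.encard_univ, ENat.card_eq_coe_fintype_card, Fintype.card_fin]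
  · have hempty : (permGraph e π).neighborSet a = ∅ := by
      rw [Set.eq_empty_iff_forall_notMem]
      intro b hb
      rw [SimpleGraph.mem_neighborSet, permGraph, SimpleGraph.fromRel_adj] at hb
      rcases hb.2 with ⟨t, w, h1, h2⟩ | ⟨t, w, h1, h2⟩
      · exact ha ⟨w, h1⟩
      · exact ha ⟨_, h2⟩
    rw [hempty]
    simp

theorem key_step (Δ q l : ℕ) (hΔ : 1 ≤ Δ) (hq : 1 ≤ q) (hl : 1 ≤ l)
    (hl2 : 11 * (Δ * (8 * q * l + 1) + 1) ≤ 2 ^ l) (n : ℕ) (hn : 2 ^ (8 * q * l) ≤ n) (k κ : ℕ)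
    (hk : k ≤ 2 ^ κ)
    (hG : ∀ G : SimpleGraph (Fin n), (∀ v, (G.neighborSet v).encard ≤ Δ) →
      GeometricThicknessLE G k) :
    Δ * (8 * q * l - 3) ≤
      2 * (1 + 2 * (l + 8 * (q - 1) * l) + 8 * l + κ * Δ + Δ + 8 * l * Δ) := by
  obtain ⟨a, ha⟩ : ∃ a, a = 8 * q * l := ⟨_, rfl⟩
  obtain ⟨m, hm⟩ : ∃ m, m = 2 ^ (a - 1) := ⟨_, rfl⟩
  have ha8 : 8 ≤ a := by
    rw [ha]
    have : 1 ≤ q * l := Nat.mul_pos hq hl
    calc 8 = 8 * 1 := rfl
      _ ≤ 8 * (q * l) := Nat.mul_le_mul_left _ this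
      _ = 8 * q * l := by ring
  have hab : a = 8 * l + 8 * (q - 1) * l := by
    rw [ha]
    obtain ⟨q', rfl⟩ : ∃ q', q = q' + 1 := ⟨q - 1, by omega⟩
    simp only [Nat.add_sub_cancel]
    ring
  have h2m : m + m = 2 ^ a := by
    rw [hm, ← two_mul, ← pow_succ']
    congr 1
    omega
  rw [← ha] at hl2 hn ⊢
  let e : Fin m ⊕ Fin m → Fin n := fun v => Fin.castLE (by omega : m + m ≤ n) (finSumFinEquiv v)
  have he : Function.Injective e := fun u v h =>
    finSumFinEquiv.injective (Fin.castLE_injective _ h)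
  have hE : a + 2 * a * Δ * (a + 1) + 4 * (Δ * (a + 1) + 1) * (6 + 4 * a + 2 * l) ≤
      2 ^ (8 * l) := by
    obtain ⟨u, hu⟩ : ∃ u, u = 2 ^ l := ⟨_, rfl⟩
    rw [← hu] at hl2
    have h1 : Δ * (a + 1) + 1 ≤ u := by omega
    have h2 : a + 1 ≤ Δ * (a + 1) := Nat.le_mul_of_pos_left _ hΔ
    have h3 : a ≤ u := by omega
    have h4 : l ≤ a := by
      rw [hab]
      omega
    have h5 : 6 + 4 * a + 2 * l ≤ 6 * u := by omega
    have h6 : 2 * a * Δ * (a + 1) ≤ 2 * u * u := by
      calc 2 * a * Δ * (a + 1) = 2 * a * (Δ * (a + 1)) := by ring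
        _ ≤ 2 * u * u := Nat.mul_le_mul (Nat.mul_le_mul_left _ h3) (by omega)
    have h7 : 4 * (Δ * (a + 1) + 1) * (6 + 4 * a + 2 * l) ≤ 4 * u * (6 * u) :=
      Nat.mul_le_mul (Nat.mul_le_mul_left _ h1) h5
    have h8 : 9 ≤ u := by omega
    have h9 : 2 ^ (8 * l) = u ^ 8 := by rw [hu, ← pow_mul, mul_comm]
    rw [h9]
    have h10 : u ≤ u * u := Nat.le_mul_self u
    have h11 : a + 2 * a * Δ * (a + 1) + 4 * (Δ * (a + 1) + 1) * (6 + 4 * a + 2 * l) ≤
        27 * (u * u) := by
      have : 4 * u * (6 * u) = 24 * (u * u) := by ring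
      have : 2 * u * u = 2 * (u * u) := by ring
      omega
    refine h11.trans ?_
    have h12 : u ^ 8 = u ^ 6 * (u * u) := by ring
    rw [h12]
    refine Nat.mul_le_mul_right _ ?_
    calc 27 ≤ 9 ^ 6 := by norm_num
      _ ≤ u ^ 6 := Nat.pow_le_pow_left h8 6
  refine final_ineq Δ a (8 * l) (8 * (q - 1) * l) l κ k m hab hm hΔ (by omega) hl2 hE hk ?_
  intro π
  have hgt := hG (permGraph e π) (permGraph_degree e he π)
  exact exists_conf (permGraph e π) hgt e he (fun t => mateOf (π t))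
    (fun t => mateOf_mateOf (π t)) (fun t => mateOf_ne (π t)) (permGraph_adj e he π)

/-- **Bounded-degree graphs have polynomially large geometric thickness, for every `Δ ≥ 5`.**
For every `Δ ≥ 5` and every exponent `γ < 1/2 - 2/Δ`, for all sufficiently large `n` there is a
graph with `n` vertices and maximum degree at most `Δ` whose geometric thickness exceeds `n ^ γ`.
As `1/2 - 2/Δ > 0`, the geometric thickness of graphs of maximum degree at most `Δ` is unbounded
for every `Δ ≥ 5`. -/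
theorem result (Δ : ℕ) (hΔ : 5 ≤ Δ) (γ : ℝ) (hγ : γ < 1 / 2 - 2 / (Δ : ℝ)) :
    ∃ n₀ : ℕ, ∀ n : ℕ, n₀ ≤ n → ∃ G : SimpleGraph (Fin n),
      (∀ v, (G.neighborSet v).encard ≤ Δ) ∧
      ∀ k : ℕ, GeometricThicknessLE G k → (n : ℝ) ^ γ < k := by
  have hΔR : (5 : ℝ) ≤ Δ := by exact_mod_cast hΔ
  obtain ⟨g, hg0, hgγ, hg⟩ : ∃ g : ℝ, 0 < g ∧ γ ≤ g ∧ g < 1 / 2 - 2 / (Δ : ℝ) := by
    refine ⟨max γ (1 / 20), lt_max_of_lt_right (by norm_num), le_max_left _ _, max_lt hγ ?_⟩
    have h1 : 2 / (Δ : ℝ) ≤ 2 / 5 := by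
      apply div_le_div_of_nonneg_left <;> linarith
    linarith
  have hD : 0 < (Δ : ℝ) - 4 - 2 * Δ * g := by
    have h1 : 2 * (Δ : ℝ) * (1 / 2 - 2 / (Δ : ℝ)) = Δ - 4 := by
      field_simp
      ring
    have h2 : 2 * (Δ : ℝ) * g < 2 * (Δ : ℝ) * (1 / 2 - 2 / (Δ : ℝ)) := by
      apply mul_lt_mul_of_pos_left hg
      linarith
    linarith
  obtain ⟨q, hq⟩ : ∃ q : ℕ, 2 * (Δ : ℝ) - 1 ≤ ((Δ : ℝ) - 4 - 2 * Δ * g) * q := by
    obtain ⟨q, hq⟩ := exists_nat_ge ((2 * (Δ : ℝ) - 1) / ((Δ : ℝ) - 4 - 2 * Δ * g))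
    refine ⟨q, ?_⟩
    rw [div_le_iff₀ hD] at hq
    linarith
  have hq1 : 1 ≤ q := by
    by_contra hcon
    have : q = 0 := by omega
    rw [this] at hq
    simp at hq
    linarith
  obtain ⟨B, hB⟩ : ∃ B : ℕ, 2 + 7 * (Δ : ℝ) + 16 * q * Δ * g < 4 * B := by
    obtain ⟨B, hB⟩ := exists_nat_gt ((2 + 7 * (Δ : ℝ) + 16 * q * Δ * g) / 4)
    refine ⟨B, ?_⟩
    linarith
  obtain ⟨l₀, hl₀⟩ : ∃ l₀, l₀ = B + (11 * Δ * 8 * q + (11 * Δ + 11)) + 4 := ⟨_, rfl⟩
  refine ⟨2 ^ (8 * q * l₀), fun n hn => ?_⟩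
  by_contra hcon
  push Not at hcon
  have hnpos : 0 < n := lt_of_lt_of_le (by positivity) hn
  have hn1 : (1 : ℝ) ≤ n := by exact_mod_cast hnpos
  -- the scale
  obtain ⟨l, hl⟩ : ∃ l, l = Nat.log 2 n / (8 * q) := ⟨_, rfl⟩
  have h8q : 0 < 8 * q := by omega
  have hlow : 2 ^ (8 * q * l) ≤ n := by
    refine le_trans (Nat.pow_le_pow_right (by norm_num) ?_) (Nat.pow_log_le_self 2 hnpos.ne')
    rw [hl]
    exact Nat.mul_div_le _ _
  have hup : n < 2 ^ (8 * q * (l + 1)) := by
    refine lt_of_lt_of_le (Nat.lt_pow_succ_log_self (b := 2) (by norm_num) n) ?_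
    refine Nat.pow_le_pow_right (by norm_num) ?_
    have := Nat.lt_mul_div_succ (Nat.log 2 n) h8q
    rw [← hl] at this
    exact this
  have hll : l₀ ≤ l := by
    rw [hl, Nat.le_div_iff_mul_le h8q, mul_comm]
    exact Nat.le_log_of_pow_le (by norm_num) hn
  have hlB : B ≤ l := by omega
  have hl2 : 11 * (Δ * (8 * q * l + 1) + 1) ≤ 2 ^ l := by
    have h1 : l * l ≤ 2 ^ l := sq_le_two_pow l (by omega)
    refine le_trans ?_ h1
    have h2 : 11 * Δ * 8 * q + (11 * Δ + 11) ≤ l := by omega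
    have h3 : 1 ≤ l := by omega
    calc 11 * (Δ * (8 * q * l + 1) + 1) = 11 * Δ * 8 * q * l + (11 * Δ + 11) * 1 := by ring
      _ ≤ 11 * Δ * 8 * q * l + (11 * Δ + 11) * l :=
          Nat.add_le_add_left (Nat.mul_le_mul_left _ h3) _
      _ = (11 * Δ * 8 * q + (11 * Δ + 11)) * l := by ring
      _ ≤ l * l := Nat.mul_le_mul_right _ h2
  -- the uniform bound on the number of colours
  obtain ⟨k, hk⟩ : ∃ k, k = ⌊(n : ℝ) ^ g⌋₊ := ⟨_, rfl⟩
  obtain ⟨κ, hκ⟩ : ∃ κ, κ = ⌈8 * q * g * (l + 1)⌉₊ := ⟨_, rfl⟩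
  have hκ1 : 8 * q * g * (l + 1) ≤ κ := by
    rw [hκ]
    exact Nat.le_ceil _
  have hκ2 : (κ : ℝ) < 8 * q * g * (l + 1) + 1 := by
    rw [hκ]
    apply Nat.ceil_lt_add_one
    positivity
  have hkκ : k ≤ 2 ^ κ := by
    have h1 : (k : ℝ) ≤ (n : ℝ) ^ g := by
      rw [hk]
      exact Nat.floor_le (by positivity)
    have h2 : (n : ℝ) ^ g ≤ ((2 : ℝ) ^ (8 * q * (l + 1))) ^ g := by
      apply Real.rpow_le_rpow (by positivity) _ hg0.le
      have : (n : ℝ) < ((2 ^ (8 * q * (l + 1)) : ℕ) : ℝ) := by exact_mod_cast hup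
      push_cast at this
      exact this.le
    have h3 : ((2 : ℝ) ^ (8 * q * (l + 1))) ^ g = (2 : ℝ) ^ (8 * q * g * (l + 1)) := by
      rw [← Real.rpow_natCast, ← Real.rpow_mul (by norm_num)]
      congr 1
      push_cast
      ring
    have h4 : (2 : ℝ) ^ (8 * q * g * (l + 1)) ≤ (2 : ℝ) ^ (κ : ℝ) :=
      Real.rpow_le_rpow_of_exponent_le (by norm_num) hκ1
    have h5 : (k : ℝ) ≤ (2 : ℝ) ^ κ := by
      rw [← Real.rpow_natCast]
      exact (h1.trans h2).trans (h3.le.trans h4)
    exact_mod_cast h5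
  have hG : ∀ G : SimpleGraph (Fin n), (∀ v, (G.neighborSet v).encard ≤ Δ) →
      GeometricThicknessLE G k := by
    intro G hdeg
    obtain ⟨k', hk', hle⟩ := hcon G hdeg
    refine thickness_mono hk' ?_
    rw [hk]
    apply Nat.le_floor
    refine hle.trans ?_
    exact Real.rpow_le_rpow_of_exponent_le hn1 hgγ
  have hfin := key_step Δ q l (by omega) hq1 (by omega) hl2 n hlow k κ hkκ hG
  -- contradiction
  have h8 : 3 ≤ 8 * q * l := by
    have : 1 ≤ q * l := Nat.mul_pos hq1 (by omega)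
    calc 3 ≤ 8 * 1 := by norm_num
      _ ≤ 8 * (q * l) := Nat.mul_le_mul_left _ this
      _ = 8 * q * l := by ring
  have hfinR : (Δ : ℝ) * (8 * q * l - 3) ≤
      2 * (1 + 2 * (l + 8 * (q - 1) * l) + 8 * l + κ * Δ + Δ + 8 * l * Δ) := by
    have h9 : ((Δ * (8 * q * l - 3) : ℕ) : ℝ) ≤
        ((2 * (1 + 2 * (l + 8 * (q - 1) * l) + 8 * l + κ * Δ + Δ + 8 * l * Δ) : ℕ) : ℝ) := by
      exact_mod_cast hfin
    push_cast [Nat.cast_sub h8, Nat.cast_sub hq1] at h9
    exact h9
  have hlR : (B : ℝ) ≤ l := by exact_mod_cast hlB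
  have hl0 : (0 : ℝ) ≤ l := Nat.cast_nonneg l
  have h10 : (2 * (Δ : ℝ) - 1) * l ≤ ((Δ : ℝ) - 4 - 2 * Δ * g) * q * l :=
    mul_le_mul_of_nonneg_right hq hl0
  have h11 : (κ : ℝ) * Δ ≤ (8 * q * g * (l + 1) + 1) * Δ :=
    mul_le_mul_of_nonneg_right hκ2.le (by linarith)
  nlinarith

end Pool.Agent.Results.MP_f50651_co.PolynomialLowerBound
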